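import Pool.Agent.Q23.CasExample

/-!
# A CAS with (T1) but not (T2)

The example is a non-unimodular discrete CAS (the one of `Pool.Agent.Q23.CasExample`). On the other
hand every commutative CAS on discrete spaces with (T1) has (T2).
-/

namespace Pool.Agent.Results.MP_3f01e7_al.T1NotT2

open Pool.Agent.Q23.Cas Finsupp

variable {X D : Type} {π : X → X → D}

/-- The Haar weights of a discrete hypergroup. -/
noncomputable def haar (H : Hypergroup D) (a : D) : ℝ := (H.conv (H.inv a) a H.e)⁻¹

theorem conv_pos (H : Hypergroup D) (a : D) : 0 < H.conv (H.inv a) a H.e :=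
  lt_of_le_of_ne (H.nonneg _ _ _) ((H.mem_supp _ _).2 (H.inv_inv a).symm).symm

theorem haar_pos (H : Hypergroup D) (a : D) : 0 < haar H a := inv_pos.2 (conv_pos H a)

theorem conv_haar (H : Hypergroup D) (a b c : D) :
    haar H b * H.conv a b c = haar H c * H.conv (H.inv c) a (H.inv b) := by
  have h1 := H.assoc (H.inv c) a b H.e
  have h2 : (H.conv (H.inv c) a).sum (fun m r => r * H.conv m b H.e) =
      H.conv (H.inv c) a (H.inv b) * H.conv (H.inv b) b H.e := by
    rw [Finsupp.sum, Finset.sum_eq_single (H.inv b)]
    · intro m _ hm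
      have : H.conv m b H.e = 0 := by
        by_contra h
        have h3 := (H.mem_supp _ _).1 h
        exact hm (by rw [h3, H.inv_inv])
      rw [this, mul_zero]
    · intro h
      rw [Finsupp.notMem_support_iff.1 h, zero_mul]
  have h3 : (H.conv a b).sum (fun m r => r * H.conv (H.inv c) m H.e) =
      H.conv a b c * H.conv (H.inv c) c H.e := by
    rw [Finsupp.sum, Finset.sum_eq_single c]
    · intro m _ hm
      have : H.conv (H.inv c) m H.e = 0 := by
        by_contra h
        have h3 := (H.mem_supp _ _).1 h
        exact hm (by rw [h3, H.inv_inv])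
      rw [this, mul_zero]
    · intro h
      rw [Finsupp.notMem_support_iff.1 h, zero_mul]
  rw [h2, h3] at h1
  unfold haar
  have p1 := conv_pos H b
  have p2 := conv_pos H c
  field_simp
  linarith

theorem haar_isHaar (H : Hypergroup D) : H.IsHaar (haar H) := by
  refine ⟨haar_pos H, fun a c => ?_⟩
  simp_rw [conv_haar]
  have h1 : HasSum (fun m => H.conv (H.inv c) a m) 1 := by
    rw [← H.mass (H.inv c) a]
    exact hasSum_sum_of_ne_finset_zero (fun m hm => Finsupp.notMem_support_iff.1 hm)
  have h2 : HasSum (fun b => H.conv (H.inv c) a (H.inv b)) 1 := by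
    let σ : D ≃ D := ⟨H.inv, H.inv, H.inv_inv, H.inv_inv⟩
    exact (σ.hasSum_iff (f := fun m => H.conv (H.inv c) a m)).2 h1
  have h3 := h2.mul_left (haar H c)
  rwa [mul_one] at h3

theorem T2_of_T1 (S : CAS π) (hc : S.Commutative) (h1 : S.T1) : S.T2 := by
  classical
  have hK : ∀ h x y, π x y = h → S.K h x y = (haar S.H h)⁻¹ := by
    intro h x y hxy
    have h2 := h1 y x h S.H.e
    have hdiag : ∀ x y, π x y = S.H.e ↔ y = x := by
      intro x y
      rw [← S.supp, S.unit, Finsupp.single_apply]
      constructor
      · intro h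
        by_contra h'
        exact h (if_neg (fun h'' => h' h''.symm))
      · intro h
        rw [if_pos h.symm]
        exact one_ne_zero
    have h3 : (S.K h x).sum (fun w r => if π y w = S.H.e then r else 0) = S.K h x y := by
      rw [Finsupp.sum, Finset.sum_eq_single y]
      · rw [if_pos ((hdiag _ _).2 rfl)]
      · intro w _ hw
        rw [if_neg (fun h => hw ((hdiag _ _).1 h))]
      · intro h
        rw [Finsupp.notMem_support_iff.1 h]
        simp
    rw [h3] at h2
    have h4 : S.K h x y ≠ 0 := (S.supp _ _ _).2 hxy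
    rw [h2] at h4
    have h5 := (S.H.mem_supp _ _).1 h4
    have h6 : π y x = S.H.inv h := by rw [h5, S.H.inv_inv]
    rw [h2, h6]
    unfold haar
    rw [inv_inv]
  have hinv : ∀ h, haar S.H (S.H.inv h) = haar S.H h := by
    intro h
    unfold haar
    rw [S.H.inv_inv, hc]
  have hpi : ∀ x y, π x y = S.H.inv (π y x) := by
    obtain ⟨ω, hω, h4⟩ := S.measure
    intro x y
    rw [← S.supp]
    intro h0
    have h1 := h4 (π y x) x y
    rw [h0, mul_zero] at h1
    have h2 : S.K (π y x) y x ≠ 0 := (S.supp _ _ _).2 rfl
    exact (mul_ne_zero (hω y).ne' h2) h1.symm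
  refine ⟨fun _ => 1, haar S.H, ⟨fun _ => one_pos, ?_⟩, haar_isHaar S.H, ?_⟩
  · intro h x y
    rw [one_mul, one_mul]
    by_cases hh : π y x = h
    · rw [hK h y x hh, hK (S.H.inv h) x y (by rw [hpi, hh]), hinv]
    · have e1 : S.K h y x = 0 := by
        by_contra h'
        exact hh ((S.supp _ _ _).1 h')
      have e2 : S.K (S.H.inv h) x y = 0 := by
        by_contra h'
        have h3 := (S.supp _ _ _).1 h'
        rw [hpi] at h3
        have h4 := congrArg S.H.inv h3
        rw [S.H.inv_inv, S.H.inv_inv] at h4
        exact hh h4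
      rw [e1, e2]
  · intro h x y
    split_ifs with hh
    · rw [hK h x y hh]
      exact inv_mul_cancel₀ (haar_pos S.H h).ne'
    · have e1 : S.K h x y = 0 := by
        by_contra h'
        exact hh ((S.supp _ _ _).1 h')
      rw [e1, zero_mul]

/-- There is a CAS on countable discrete spaces with property (T1) but not (T2). Every commutative
CAS on discrete spaces with property (T1) has property (T2). -/
theorem result : (∃ (X D : Type) (_ : Countable X) (_ : Countable D) (π : X → X → D) (S : CAS π),
      S.T1 ∧ ¬ S.T2) ∧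
    ∀ (X D : Type) (π : X → X → D) (S : CAS π), S.Commutative → S.T1 → S.T2 :=
  ⟨⟨Example.X, Example.D, inferInstance, inferInstance, Example.π, Example.scheme,
    Example.scheme_T1, Example.not_T2 _⟩, fun _ _ _ S hc h1 => T2_of_T1 S hc h1⟩

end Pool.Agent.Results.MP_3f01e7_al.T1NotT2
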